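import Mathlib
import Pool.Agent.H29.OptDesignDefs
import Pool.Agent.H29.OptDesign

set_option autoImplicit false

namespace Pool.Agent.Results.MP_c32163_co.Q1Counter

open Pool.Agent.H29.OptDesign

theorem result : ∃ (v b k : ℕ) (d : Design v b k), AOpt d ∧ DOpt d ∧ EOpt d ∧
    ∃ i j m n : Fin v, i ≠ j ∧ m ≠ n ∧ conc d m n < conc d i j ∧
      (∃ G, info d * G * info d = info d) ∧
      ∀ G, info d * G * info d = info d → pairVar G m n ≤ pairVar G i j := by
  obtain ⟨h1, h2, h3, h4, h5, h6⟩ := main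
  exact ⟨5, 6, 2, K23, h1, h2, h3, 0, 2, 0, 1, by decide, by decide, h4, h5, h6⟩

end Pool.Agent.Results.MP_c32163_co.Q1Counter
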